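import Pool.Agent.Helper29.C2.Syn
import Pool.Agent.Helper20.Spectra.Defs

/-!
# The sizes of the models of a two-variable sentence with counting form a spectrum
-/

set_option autoImplicit false

namespace Pool.Agent.Helper80.NF

open Pool.Agent.Helper29.C2 Pool.Agent.Helper20.Spectra FirstOrder FirstOrder.Language

/-- relation symbols -/
inductive Rl (Λ U V : Type) : ℕ → Type
  | un (P : U) : Rl Λ U V 1
  | ord (l : Λ) : Rl Λ U V 2
  | bin (E : V) : Rl Λ U V 2

/-- the vocabulary -/
def LC (Λ U V : Type) : FirstOrder.Language.{0, 0} := ⟨fun _ => Empty, Rl Λ U V⟩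

variable {Λ U V A : Type}

instance : Finite (Σ l, (LC Λ U V).Functions l) :=
  Finite.of_injective (β := Empty) (fun x => x.2) (fun x => x.2.elim)

instance [Finite Λ] [Finite U] [Finite V] : Finite (Σ l, (LC Λ U V).Relations l) := by
  refine Finite.of_surjective (α := U ⊕ (Λ ⊕ V)) (fun x => match x with
    | Sum.inl P => ⟨1, Rl.un P⟩
    | Sum.inr (Sum.inl l) => ⟨2, Rl.ord l⟩
    | Sum.inr (Sum.inr E) => ⟨2, Rl.bin E⟩) ?_
  rintro ⟨n, r⟩
  rcases r with P | l | E
  · exact ⟨Sum.inl P, rfl⟩
  · exact ⟨Sum.inr (Sum.inl l), rfl⟩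
  · exact ⟨Sum.inr (Sum.inr E), rfl⟩

/-- a structure as a structure of the vocabulary -/
@[reducible] def toS (M : Str Λ U V A) : (LC Λ U V).Structure A where
  funMap := fun {_} f => f.elim
  RelMap := fun {_} r => match r with
    | Rl.un P => fun x => M.un P (x 0)
    | Rl.ord l => fun x => M.ord l (x 0) (x 1)
    | Rl.bin E => fun x => M.bin E (x 0) (x 1)

/-- back -/
def ofS (A : Type) [S : (LC Λ U V).Structure A] : Str Λ U V A where
  un := fun P x => S.RelMap (Rl.un P) ![x]
  ord := fun l x y => S.RelMap (Rl.ord l) ![x, y]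
  bin := fun E x y => S.RelMap (Rl.bin E) ![x, y]

lemma ofS_toS (M : Str Λ U V A) : @ofS Λ U V A (toS M) = M := rfl

/-- the formula of the background relation `l` -/
def fo (l : Λ) {α : Type} (a b : α) : (LC Λ U V).Formula α :=
  Relations.formula₂ (L := LC Λ U V) (Rl.ord l) (Term.var a) (Term.var b)

/-- translation -/
noncomputable def tr : Fm Λ U V → (LC Λ U V).Formula Bool
  | Fm.eq => Term.equal (Term.var true) (Term.var false)
  | Fm.ord l v => fo l v (!v)
  | Fm.un P v => Relations.formula₁ (L := LC Λ U V) (Rl.un P) (Term.var v)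
  | Fm.bin E v w => Relations.formula₂ (L := LC Λ U V) (Rl.bin E) (Term.var v) (Term.var w)
  | Fm.neg φ => ∼(tr φ)
  | Fm.and φ ψ => tr φ ⊓ tr ψ
  | Fm.ex k v φ => Formula.iExs (Fin k)
      (Formula.iInf (fun p : {p : Fin k × Fin k // p.1 ≠ p.2} =>
        ∼(Term.equal (Term.var (Sum.inr p.1.1) : (LC Λ U V).Term (Bool ⊕ Fin k)) (Term.var (Sum.inr p.1.2)))) ⊓
      Formula.iInf (fun i : Fin k => (tr φ).relabel (fun w => if w = v then (Sum.inr i : Bool ⊕ Fin k) else Sum.inl w)))

lemma realize_tr [Finite A] [S : (LC Λ U V).Structure A] (φ : Fm Λ U V) : ∀ e : Bool → A,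
    (tr φ).Realize e ↔ Sat (ofS A) φ e := by
  induction φ with
  | eq => intro e; exact Formula.realize_equal
  | ord l v => intro e; exact Formula.realize_rel₂
  | un P v => intro e; exact Formula.realize_rel₁
  | bin E v w => intro e; exact Formula.realize_rel₂
  | neg φ ih => intro e; exact not_congr (ih e)
  | and φ ψ ih1 ih2 => intro e; exact (Formula.realize_inf).trans (and_congr (ih1 e) (ih2 e))
  | ex k v φ ih =>
    intro e
    show (tr (Fm.ex k v φ)).Realize e ↔ k ≤ Nat.card {a : A // Sat (ofS A) φ (Function.update e v a)}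
    unfold tr
    rw [Formula.realize_iExs]
    simp only [Formula.realize_inf, Formula.realize_iInf, Formula.realize_relabel, ih]
    have key : ∀ (i : Fin k → A) (b : Fin k),
        (Sum.elim e i ∘ fun w => if w = v then (Sum.inr b : Bool ⊕ Fin k) else Sum.inl w) = Function.update e v (i b) := by
      intro i b
      funext w
      by_cases hw : w = v
      · subst hw; simp
      · simp [hw]
    simp only [key]
    constructor
    · rintro ⟨i, h1, h2⟩
      have hinj : Function.Injective (fun b : Fin k => (⟨i b, h2 b⟩ : {a : A // Sat (ofS A) φ (Function.update e v a)})) := by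
        intro b b' hb
        by_contra hne
        exact h1 ⟨(b, b'), hne⟩ (congrArg Subtype.val hb)
      calc k = Nat.card (Fin k) := by simp
        _ ≤ _ := Nat.card_le_card_of_injective _ hinj
    · intro h
      haveI := Fintype.ofFinite {a : A // Sat (ofS A) φ (Function.update e v a)}
      rw [Nat.card_eq_fintype_card] at h
      obtain ⟨f⟩ := Function.Embedding.nonempty_of_card_le (α := Fin k)
        (β := {a : A // Sat (ofS A) φ (Function.update e v a)}) (by simpa using h)
      refine ⟨fun b => (f b).1, ?_, fun b => (f b).2⟩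
      rintro ⟨⟨b, b'⟩, hne⟩ hb
      exact hne (f.injective (Subtype.ext hb))

/-- every condition on the truth values of finitely many formulas is expressed by a formula -/
lemma exists_form {L : FirstOrder.Language.{0, 0}} {α B : Type} [Finite B] (at' : B → L.Formula α)
    (T : (B → Prop) → Prop) :
    ∃ φ : L.Formula α, ∀ (A : Type) [L.Structure A] (e : α → A),
      φ.Realize e ↔ T (fun b => (at' b).Realize e) := by
  classical
  haveI := Fintype.ofFinite B
  refine ⟨Formula.iSup (fun v : {v : B → Bool // T (fun b => v b = true)} =>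
    Formula.iInf (fun b : B => if v.1 b = true then at' b else ∼(at' b))), fun A _ e => ?_⟩
  rw [Formula.realize_iSup]
  simp only [Formula.realize_iInf]
  constructor
  · rintro ⟨⟨v, hv⟩, h⟩
    have : (fun b => v b = true) = fun b => (at' b).Realize e := by
      funext b
      have hb := h b
      by_cases hvb : v b = true
      · rw [if_pos hvb] at hb
        exact propext ⟨fun _ => hb, fun _ => hvb⟩
      · rw [if_neg hvb] at hb
        exact propext ⟨fun h => absurd h hvb, fun h => absurd h hb⟩
    rwa [this] at hv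
  · intro h
    refine ⟨⟨fun b => decide ((at' b).Realize e), by simpa using h⟩, fun b => ?_⟩
    by_cases hb : (at' b).Realize e
    · simp [hb]
    · simp [hb]

/-- A class of backgrounds defined by a universal condition with three variables. -/
def Univ3 (bg : ∀ A : Type, (Λ → A → A → Prop) → Prop) : Prop :=
  ∃ B : (Λ → Fin 3 → Fin 3 → Prop) → (Fin 3 → Fin 3 → Prop) → Prop, ∀ (A : Type) (ord : Λ → A → A → Prop),
    bg A ord ↔ ∀ v : Fin 3 → A, B (fun l i j => ord l (v i) (v j)) (fun i j => v i = v j)

/-- The sizes of the models of a two-variable sentence over a class of backgrounds form a spectrum. -/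
theorem isSpectrum_c2 [Finite Λ] [Finite U] [Finite V] {bg : ∀ A : Type, (Λ → A → A → Prop) → Prop}
    (hbg : Univ3 bg) (Φ : Fm Λ U V) :
    IsSpectrum {n : ℕ | 1 ≤ n ∧ ∃ M : Str Λ U V (Fin n), bg (Fin n) M.ord ∧ ∀ e, Sat M Φ e} := by
  obtain ⟨B, hB⟩ := hbg
  obtain ⟨χ, hχ⟩ := exists_form (L := LC Λ U V) (α := Fin 3) (B := (Λ × Fin 3 × Fin 3) ⊕ (Fin 3 × Fin 3))
    (fun b => match b with
      | Sum.inl (l, i, j) => fo l i j
      | Sum.inr (i, j) => Term.equal (Term.var i) (Term.var j))
    (fun v => B (fun l i j => v (Sum.inl (l, i, j))) (fun i j => v (Sum.inr (i, j))))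
  let φ : (LC Λ U V).Sentence :=
    Formula.iAlls (Fin 3) (χ.relabel (Sum.inr : Fin 3 → Empty ⊕ Fin 3)) ⊓
    Formula.iAlls Bool ((tr Φ).relabel (Sum.inr : Bool → Empty ⊕ Bool))
  have hφ : ∀ (A : Type) [Finite A] [(LC Λ U V).Structure A], A ⊨ φ ↔
      (bg A (ofS (Λ := Λ) (U := U) (V := V) A).ord ∧ ∀ e, Sat (ofS A) Φ e) := by
    intro A _ S
    show Formula.Realize φ _ ↔ _
    simp only [φ]
    rw [Formula.realize_inf, Formula.realize_iAlls, Formula.realize_iAlls, hB]
    refine and_congr (forall_congr' fun v => ?_) (forall_congr' fun e => ?_)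
    · rw [Formula.realize_relabel]
      have : (Sum.elim (default : Empty → A) v ∘ (Sum.inr : Fin 3 → Empty ⊕ Fin 3)) = v := rfl
      rw [this, hχ]
      refine iff_of_eq (congrArg₂ B ?_ ?_)
      · funext l i j
        exact propext Formula.realize_rel₂
      · funext i j
        exact propext Formula.realize_equal
    · rw [Formula.realize_relabel]
      have : (Sum.elim (default : Empty → A) e ∘ (Sum.inr : Bool → Empty ⊕ Bool)) = e := rfl
      rw [this, realize_tr]
  refine ⟨LC Λ U V, inferInstance, inferInstance, φ, Set.ext fun n => and_congr_right fun hn => ?_⟩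
  constructor
  · rintro ⟨M, h1, h2⟩
    refine ⟨Fin n, toS M, inferInstance, Fintype.card_fin n, ?_⟩
    rw [hφ, ofS_toS]
    exact ⟨h1, h2⟩
  · rintro ⟨A, S, _, hcard, hreal⟩
    have e : Fin n ≃ A := (Fintype.equivFinOfCardEq hcard).symm
    letI : (LC Λ U V).Structure (Fin n) := e.symm.inducedStructure
    have e' : (LC Λ U V).Equiv A (Fin n) := e.symm.inducedStructureEquiv
    have : Fin n ⊨ φ := (StrongHomClass.realize_sentence e' φ).1 hreal
    rw [hφ] at this
    exact ⟨ofS (Fin n), this⟩

end Pool.Agent.Helper80.NF
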