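import Pool.Agent.Helper29.C2.Syn

/-!
# Two-variable sentences from a normal form

For finitely many colours, background relations and binary relations, any condition of the form
`u` for all pairs and a condition `T i` on the colour of `x` and the number of the `y` with `w i`, is expressed
by a two-variable formula with counting quantifiers.
-/

set_option autoImplicit false

namespace Pool.Agent.Helper80.NF

open Pool.Agent.Helper29.C2

/-- the facts of an ordered pair -/
structure Fct (Λ V : Type) where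
  /-- the two elements are equal -/
  eq : Prop
  /-- background, from the first to the second -/
  o : Λ → Prop
  /-- background, from the second to the first -/
  o' : Λ → Prop
  /-- binary relations, from the first to the second -/
  b : V → Prop
  /-- binary relations, from the second to the first -/
  b' : V → Prop

/-- the facts of a pair of elements -/
def fact {Λ U V A : Type} (M : Str Λ U V A) (x y : A) : Fct Λ V :=
  ⟨x = y, fun l => M.ord l x y, fun l => M.ord l y x, fun E => M.bin E x y, fun E => M.bin E y x⟩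

section comb

variable {Λ U V : Type}

/-- truth -/
def tt : Fm Λ U V := Fm.neg (Fm.and Fm.eq (Fm.neg Fm.eq))

/-- conjunction of a list -/
def andL : List (Fm Λ U V) → Fm Λ U V
  | [] => tt
  | φ :: l => Fm.and φ (andL l)

/-- disjunction of a list -/
def orL (l : List (Fm Λ U V)) : Fm Λ U V := Fm.neg (andL (l.map Fm.neg))

variable {A : Type} (M : Str Λ U V A) (e : Bool → A)

lemma sat_tt : Sat M tt e := by
  show ¬ (e true = e false ∧ ¬ e true = e false)
  rintro ⟨h, h'⟩
  exact h' h

lemma sat_andL (l : List (Fm Λ U V)) : Sat M (andL l) e ↔ ∀ φ ∈ l, Sat M φ e := by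
  induction l with
  | nil => exact ⟨fun _ _ h => absurd h (List.not_mem_nil), fun _ => sat_tt M e⟩
  | cons a l ih =>
    rw [List.forall_mem_cons, ← ih]
    exact Iff.rfl

lemma sat_orL (l : List (Fm Λ U V)) : Sat M (orL l) e ↔ ∃ φ ∈ l, Sat M φ e := by
  show ¬ Sat M (andL (l.map Fm.neg)) e ↔ _
  rw [sat_andL]
  constructor
  · intro h
    by_contra h1
    refine h fun φ hφ => ?_
    obtain ⟨ψ, hψ, rfl⟩ := List.mem_map.1 hφ
    exact fun h2 => h1 ⟨ψ, hψ, h2⟩
  · rintro ⟨ψ, hψ, h2⟩ h
    exact h (Fm.neg ψ) (List.mem_map.2 ⟨ψ, hψ, rfl⟩) h2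

end comb

/-- every condition on the truth values of finitely many formulas is expressed by a formula -/
lemma exists_fm {Λ U V B : Type} [Finite B] (at' : B → Fm Λ U V) (S : (B → Prop) → Prop) :
    ∃ φ : Fm Λ U V, ∀ (A : Type) (M : Str Λ U V A) (e : Bool → A),
      Sat M φ e ↔ S (fun b => Sat M (at' b) e) := by
  classical
  haveI := Fintype.ofFinite B
  let lit : (B → Bool) → B → Fm Λ U V := fun v b => if v b then at' b else Fm.neg (at' b)
  let cell : (B → Bool) → Fm Λ U V := fun v => andL ((Finset.univ : Finset B).toList.map (lit v))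
  refine ⟨orL (((Finset.univ : Finset (B → Bool)).filter fun v => S (fun b => v b = true)).toList.map cell), ?_⟩
  intro A M e
  have hcell : ∀ v : B → Bool, Sat M (cell v) e ↔ ∀ b, (v b = true ↔ Sat M (at' b) e) := by
    intro v
    simp only [cell]
    rw [sat_andL]
    constructor
    · intro h b
      have := h (lit v b) (List.mem_map.2 ⟨b, Finset.mem_toList.2 (Finset.mem_univ b), rfl⟩)
      simp only [lit] at this
      by_cases hb : v b = true
      · rw [if_pos hb] at this
        exact ⟨fun _ => this, fun _ => hb⟩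
      · rw [if_neg hb] at this
        exact ⟨fun h => absurd h hb, fun h => absurd h this⟩
    · intro h φ hφ
      obtain ⟨b, -, rfl⟩ := List.mem_map.1 hφ
      simp only [lit]
      by_cases hb : v b = true
      · rw [if_pos hb]
        exact (h b).1 hb
      · rw [if_neg hb]
        exact fun h' => hb ((h b).2 h')
  rw [sat_orL]
  constructor
  · rintro ⟨φ, hφ, hs⟩
    obtain ⟨v, hv, rfl⟩ := List.mem_map.1 hφ
    have hv' := (Finset.mem_filter.1 (Finset.mem_toList.1 hv)).2
    have := (hcell v).1 hs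
    have e1 : (fun b => v b = true) = fun b => Sat M (at' b) e := funext fun b => propext (this b)
    rwa [e1] at hv'
  · intro h
    refine ⟨cell (fun b => decide (Sat M (at' b) e)), List.mem_map.2 ⟨_, ?_, rfl⟩, (hcell _).2 fun b => by simp⟩
    rw [Finset.mem_toList, Finset.mem_filter]
    refine ⟨Finset.mem_univ _, ?_⟩
    simpa using h

/-- quantifier-free conditions on two coloured elements -/
lemma exists_qf {C Λ V : Type} [Finite C] [Finite Λ] [Finite V] (D : C → C → Fct Λ V → Prop) :
    ∃ φ : Fm Λ C V, ∀ (A : Type) (M : Str Λ C V A) (c : A → C) (_ : ∀ x P, M.un P x ↔ P = c x) (e : Bool → A),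
      Sat M φ e ↔ D (c (e true)) (c (e false)) (fact M (e true) (e false)) := by
  obtain ⟨φ, hφ⟩ := exists_fm (Λ := Λ) (U := C) (V := V) (B := (C ⊕ C) ⊕ (Unit ⊕ ((Λ ⊕ Λ) ⊕ (V ⊕ V))))
    (fun b => match b with
      | Sum.inl (Sum.inl P) => Fm.un P true
      | Sum.inl (Sum.inr P) => Fm.un P false
      | Sum.inr (Sum.inl _) => Fm.eq
      | Sum.inr (Sum.inr (Sum.inl (Sum.inl l))) => Fm.ord l true
      | Sum.inr (Sum.inr (Sum.inl (Sum.inr l))) => Fm.ord l false
      | Sum.inr (Sum.inr (Sum.inr (Sum.inl E))) => Fm.bin E true false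
      | Sum.inr (Sum.inr (Sum.inr (Sum.inr E))) => Fm.bin E false true)
    (fun v => ∃ c1 c2 : C, (∀ P, v (Sum.inl (Sum.inl P)) ↔ P = c1) ∧ (∀ P, v (Sum.inl (Sum.inr P)) ↔ P = c2) ∧
      D c1 c2 ⟨v (Sum.inr (Sum.inl ())), fun l => v (Sum.inr (Sum.inr (Sum.inl (Sum.inl l)))),
        fun l => v (Sum.inr (Sum.inr (Sum.inl (Sum.inr l)))), fun E => v (Sum.inr (Sum.inr (Sum.inr (Sum.inl E)))),
        fun E => v (Sum.inr (Sum.inr (Sum.inr (Sum.inr E))))⟩)
  refine ⟨φ, fun A M c hc e => ?_⟩
  rw [hφ]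
  constructor
  · rintro ⟨c1, c2, h1, h2, h3⟩
    have e1 : c1 = c (e true) := (hc (e true) c1).1 ((h1 c1).2 rfl)
    have e2 : c2 = c (e false) := (hc (e false) c2).1 ((h2 c2).2 rfl)
    rw [← e1, ← e2]
    exact h3
  · intro h
    exact ⟨c (e true), c (e false), fun P => hc (e true) P, fun P => hc (e false) P, h⟩

/-- The normal form. -/
theorem nf_formula {C Λ V I : Type} [Finite C] [Finite Λ] [Finite V] [Finite I] (K : ℕ)
    (u : C → C → Fct Λ V → Prop) (T : I → C → ℕ → Prop) (w : I → C → C → Fct Λ V → Prop) :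
    ∃ Φ : Fm Λ C V, ∀ (A : Type) (M : Str Λ C V A), (∀ e, Sat M Φ e) ↔
      ∃ c : A → C, (∀ x P, M.un P x ↔ P = c x) ∧ (∀ x y, u (c x) (c y) (fact M x y)) ∧
        ∀ i x, T i (c x) (min K (Nat.card {y : A // w i (c x) (c y) (fact M x y)})) := by
  classical
  haveI := Fintype.ofFinite C
  haveI := Fintype.ofFinite I
  -- one colour
  obtain ⟨φ0, h0⟩ := exists_fm (Λ := Λ) (U := C) (V := V) (B := C) (fun P => Fm.un P true)
    (fun v => ∃ c1 : C, ∀ P, v P ↔ P = c1)
  -- pairs
  obtain ⟨φ1, h1⟩ := exists_qf u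
  -- witnesses
  have h2 := fun i => exists_qf (w i)
  choose ω hω using h2
  -- counting conditions
  have h3 : ∀ i, ∃ φ : Fm Λ C V, ∀ (A : Type) (M : Str Λ C V A) (c : A → C) (_ : ∀ x P, M.un P x ↔ P = c x)
      (e : Bool → A), Sat M φ e ↔
        T i (c (e true)) (min K (Nat.card {y : A // w i (c (e true)) (c y) (fact M (e true) y)})) := by
    intro i
    obtain ⟨φ, hφ⟩ := exists_fm (Λ := Λ) (U := C) (V := V) (B := C ⊕ Fin (K + 1))
      (fun b => match b with
        | Sum.inl P => Fm.un P true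
        | Sum.inr k => Fm.ex k.1 false (ω i))
      (fun v => ∃ (c1 : C) (k : Fin (K + 1)), (∀ P, v (Sum.inl P) ↔ P = c1) ∧ (∀ j, v (Sum.inr j) ↔ j.1 ≤ k.1) ∧
        T i c1 k.1)
    refine ⟨φ, fun A M c hc e => ?_⟩
    rw [hφ]
    have hs : ∀ k : ℕ, Sat M (Fm.ex k false (ω i)) e ↔
        k ≤ Nat.card {y : A // w i (c (e true)) (c y) (fact M (e true) y)} := by
      intro k
      show k ≤ Nat.card {a : A // Sat M (ω i) (Function.update e false a)} ↔ _
      have : ∀ a, Sat M (ω i) (Function.update e false a) ↔ w i (c (e true)) (c a) (fact M (e true) a) := by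
        intro a
        rw [hω i A M c hc]
        simp
      simp only [this]
    constructor
    · rintro ⟨c1, k, a1, a2, a3⟩
      have e1 : c1 = c (e true) := (hc (e true) c1).1 ((a1 c1).2 rfl)
      have e2 : min K (Nat.card {y : A // w i (c (e true)) (c y) (fact M (e true) y)}) = k.1 := by
        apply le_antisymm
        · by_contra h4
          push Not at h4
          have h5 : k.1 + 1 ≤ K := le_trans h4 (min_le_left _ _)
          have h6 := (a2 ⟨k.1 + 1, by omega⟩).1 ((hs (k.1 + 1)).2 (le_trans h4 (min_le_right _ _)))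
          simp at h6
        · exact le_min (Nat.lt_succ_iff.1 k.2) ((hs k.1).1 ((a2 k).2 le_rfl))
      rw [e2, ← e1]
      exact a3
    · intro h
      refine ⟨c (e true), ⟨min K (Nat.card {y : A // w i (c (e true)) (c y) (fact M (e true) y)}),
        Nat.lt_succ_of_le (min_le_left _ _)⟩, fun P => hc (e true) P, fun j => ?_, h⟩
      show Sat M (Fm.ex j.1 false (ω i)) e ↔ _
      rw [hs]
      exact ⟨fun h => le_min (Nat.lt_succ_iff.1 j.2) h, fun h => le_trans h (min_le_right _ _)⟩
  choose τ hτ using h3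
  refine ⟨Fm.and φ0 (Fm.and φ1 (andL ((Finset.univ : Finset I).toList.map τ))), fun A M => ?_⟩
  constructor
  · intro h
    have k0 : ∀ x, ∃ c1 : C, ∀ P, M.un P x ↔ P = c1 := fun x => (h0 A M (fun _ => x)).1 (h (fun _ => x)).1
    choose c hc using k0
    refine ⟨c, hc, fun x y => ?_, fun i x => ?_⟩
    · have := (h1 A M c hc (fun b => if b then x else y)).1 (h _).2.1
      simpa using this
    · have := (hτ i A M c hc (fun _ => x)).1 ((sat_andL M _ _).1 (h (fun _ => x)).2.2 _
        (List.mem_map.2 ⟨i, Finset.mem_toList.2 (Finset.mem_univ i), rfl⟩))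
      exact this
  · rintro ⟨c, hc, hu, hT⟩ e
    refine ⟨(h0 A M e).2 ⟨c (e true), fun P => hc (e true) P⟩, (h1 A M c hc e).2 (hu _ _), (sat_andL M _ _).2 ?_⟩
    intro φ hφ
    obtain ⟨i, -, rfl⟩ := List.mem_map.1 hφ
    exact (hτ i A M c hc e).2 (hT i (e true))

/-- The normal form with conditions `exactly one`. -/
theorem nf_unique {C Λ V I : Type} [Finite C] [Finite Λ] [Finite V] [Finite I]
    (u : C → C → Fct Λ V → Prop) (g : I → C → Prop) (w : I → C → C → Fct Λ V → Prop) :
    ∃ Φ : Fm Λ C V, ∀ (A : Type) (M : Str Λ C V A), (∀ e, Sat M Φ e) ↔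
      ∃ c : A → C, (∀ x P, M.un P x ↔ P = c x) ∧ (∀ x y, u (c x) (c y) (fact M x y)) ∧
        ∀ i x, g i (c x) → ∃! y, w i (c x) (c y) (fact M x y) := by
  obtain ⟨Φ, hΦ⟩ := nf_formula 2 u (fun i c n => g i c → n = 1) w
  refine ⟨Φ, fun A M => ?_⟩
  rw [hΦ]
  refine exists_congr fun c => and_congr_right fun hc => and_congr_right fun hu => ?_
  refine forall_congr' fun i => forall_congr' fun x => imp_congr_right fun _ => ?_
  have : min 2 (Nat.card {y : A // w i (c x) (c y) (fact M x y)}) = 1 ↔
      Nat.card {y : A // w i (c x) (c y) (fact M x y)} = 1 := by omega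
  rw [this, Nat.card_eq_one_iff_exists]
  constructor
  · rintro ⟨⟨y, hy⟩, h⟩
    exact ⟨y, hy, fun z hz => congrArg Subtype.val (h ⟨z, hz⟩)⟩
  · rintro ⟨y, hy, h⟩
    exact ⟨⟨y, hy⟩, fun z => Subtype.ext (h z.1 z.2)⟩

end Pool.Agent.Helper80.NF
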