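import Pool.Agent.Helper80.NF.Spec
import Pool.Agent.Helper29.C2.Named

/-!
# Spectra over classes of backgrounds with a universal definition
-/

set_option autoImplicit false

namespace Pool.Agent.Helper80.NF

open Pool.Agent.Helper29.C2 Pool.Agent.Helper20.Spectra FirstOrder FirstOrder.Language

variable {Λ U V A : Type}

/-- The sizes of the models of a two-variable sentence over a class of backgrounds with a universal definition
form a spectrum. -/
theorem isSpectrum_c2N [Finite Λ] [Finite U] [Finite V] {r : ℕ} {bg : ∀ A : Type, (Λ → A → A → Prop) → Prop}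
    (hbg : UnivN r bg) (Φ : Fm Λ U V) :
    IsSpectrum {n : ℕ | 1 ≤ n ∧ ∃ M : Str Λ U V (Fin n), bg (Fin n) M.ord ∧ ∀ e, Sat M Φ e} := by
  obtain ⟨B, hB⟩ := hbg
  obtain ⟨χ, hχ⟩ := exists_form (L := LC Λ U V) (α := Fin r) (B := (Λ × Fin r × Fin r) ⊕ (Fin r × Fin r))
    (fun b => match b with
      | Sum.inl (l, i, j) => fo l i j
      | Sum.inr (i, j) => Term.equal (Term.var i) (Term.var j))
    (fun v => B (fun l i j => v (Sum.inl (l, i, j))) (fun i j => v (Sum.inr (i, j))))
  let φ : (LC Λ U V).Sentence :=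
    Formula.iAlls (Fin r) (χ.relabel (Sum.inr : Fin r → Empty ⊕ Fin r)) ⊓
    Formula.iAlls Bool ((tr Φ).relabel (Sum.inr : Bool → Empty ⊕ Bool))
  have hφ : ∀ (A : Type) [Finite A] [(LC Λ U V).Structure A], A ⊨ φ ↔
      (bg A (ofS (Λ := Λ) (U := U) (V := V) A).ord ∧ ∀ e, Sat (ofS A) Φ e) := by
    intro A _ S
    show Formula.Realize φ _ ↔ _
    simp only [φ]
    rw [Formula.realize_inf, Formula.realize_iAlls, Formula.realize_iAlls, hB]
    refine and_congr (forall_congr' fun v => ?_) (forall_congr' fun e => ?_)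
    · rw [Formula.realize_relabel]
      have : (Sum.elim (default : Empty → A) v ∘ (Sum.inr : Fin r → Empty ⊕ Fin r)) = v := rfl
      rw [this, hχ]
      refine iff_of_eq (congrArg₂ B ?_ ?_)
      · funext l i j
        exact propext Formula.realize_rel₂
      · funext i j
        exact propext Formula.realize_equal
    · rw [Formula.realize_relabel]
      have : (Sum.elim (default : Empty → A) e ∘ (Sum.inr : Bool → Empty ⊕ Bool)) = e := rfl
      rw [this, realize_tr]
  refine ⟨LC Λ U V, inferInstance, inferInstance, φ, Set.ext fun n => and_congr_right fun hn => ?_⟩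
  constructor
  · rintro ⟨M, h1, h2⟩
    refine ⟨Fin n, toS M, inferInstance, Fintype.card_fin n, ?_⟩
    rw [hφ, ofS_toS]
    exact ⟨h1, h2⟩
  · rintro ⟨A, S, _, hcard, hreal⟩
    have e : Fin n ≃ A := (Fintype.equivFinOfCardEq hcard).symm
    letI : (LC Λ U V).Structure (Fin n) := e.symm.inducedStructure
    have e' : (LC Λ U V).Equiv A (Fin n) := e.symm.inducedStructureEquiv
    have : Fin n ⊨ φ := (StrongHomClass.realize_sentence e' φ).1 hreal
    rw [hφ] at this
    exact ⟨ofS (Fin n), this⟩

/-- The two-variable spectra over a class with a universal definition are spectra. -/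
theorem c2Spectrum_isSpectrum [Finite Λ] {r : ℕ} {K : ∀ A : Type, (Λ → A → A → Prop) → Prop} (hK : UnivN r K)
    {S : Set ℕ} (h : C2Spectrum K S) : IsSpectrum S := by
  obtain ⟨U, V, hU, hV, Φ, rfl⟩ := h
  exact isSpectrum_c2N hK Φ

end Pool.Agent.Helper80.NF
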